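import Pool.Agent.helper43.SplitSyl
import Pool.Agent.helper43.SplitOrd
import Pool.Agent.helper43.SplitOwn
import Pool.Agent.helper43.SplitOwnB

/-!
# A split group whose Sylow 2-subgroups are not split

There is a group `G` of order `2 ^ 12 * 3 = 12288` such that every irreducible complex
representation of `G` can be realized by matrices with rational entries, while every Sylow
`2`-subgroup of `G` has an irreducible complex representation whose character takes a non-real
value, so that it cannot be realized over the rational numbers (nor over the real numbers).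

`G` is the semidirect product of an elementary abelian group of order `2 ^ 6` (the `4 × 3` matrices
over `F₂` with all row and column sums zero) with the group `Dih(C₄ × C₄) × S₃` of order `192`.
-/

set_option autoImplicit false

namespace Pool.Agent.Results.MP_058405_al.SylowNotSplit

/-- `G` is split: every irreducible complex representation `ρ` of `G` can be realized by matrices
with rational entries, that is, the matrices `A g` of all `ρ g` in some basis `b` are rational. -/
def IsSplit (G : Type) [Group G] : Prop :=
  ∀ (V : Type) [AddCommGroup V] [Module ℂ V] (ρ : Representation ℂ G V), ρ.IsIrreducible →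
    ∃ (n : ℕ) (b : Module.Basis (Fin n) ℂ V) (A : G → Fin n → Fin n → ℚ),
      ∀ (g : G) (j : Fin n), ρ g (b j) = ∑ i, (A g i j : ℂ) • b i

/-- Some irreducible complex representation of `G` has a non-real character value. -/
def HasNonrealCharacter (G : Type) [Group G] : Prop :=
  ∃ (n : ℕ) (ρ : Representation ℂ G (Fin n → ℂ)) (x : G),
    ρ.IsIrreducible ∧ (ρ.character x).im ≠ 0

/-- **A split group of order `2 ^ 12 * 3` whose Sylow `2`-subgroups are not split: they have an
irreducible complex representation with a non-real character value.** -/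
theorem result :
    ∃ (G : Type) (_ : Group G), Nat.card G = 2 ^ 12 * 3 ∧ IsSplit G ∧
      ∀ S : Sylow 2 G, ¬ IsSplit S ∧ HasNonrealCharacter S := by
  refine ⟨Pool.Agent.H43.GG, inferInstance, Pool.Agent.H43.card_GG, ?_, fun S => ?_⟩
  · obtain ⟨ι, _, n, ⟨e⟩⟩ := Pool.Agent.H43.GG_split
    intro V _ _ ρ hρ
    obtain ⟨m, b, hb⟩ := Pool.Agent.H43.realized e V ρ hρ
    choose A hA using hb
    refine ⟨m, b, A, fun g j => ?_⟩
    rw [← b.sum_repr (ρ g (b j))]
    refine Finset.sum_congr rfl fun i _ => ?_
    rw [← hA g i j, LinearMap.toMatrix_apply]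
  · -- an element of `S` which is not conjugate to its inverse
    obtain ⟨x, hx⟩ : ∃ x : S, ∀ g : S, g * x * g⁻¹ ≠ x⁻¹ := by
      obtain ⟨P, hP⟩ := IsPGroup.exists_le_sylow Pool.Agent.H43.S0_isPGroup
      have hx : Pool.Agent.H43.xG ∈ (P : Subgroup Pool.Agent.H43.GG) := hP Pool.Agent.H43.xG_mem
      let f : P ≃* S := Sylow.equiv P S
      refine ⟨f ⟨Pool.Agent.H43.xG, hx⟩, fun g hg => ?_⟩
      have h1 : f.symm g * ⟨Pool.Agent.H43.xG, hx⟩ * (f.symm g)⁻¹ =
          (⟨Pool.Agent.H43.xG, hx⟩ : P)⁻¹ := by
        apply f.injective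
        rw [map_mul, map_mul, map_inv, map_inv, f.apply_symm_apply]
        exact hg
      refine Pool.Agent.H43.xG_not_conj (f.symm g).1
        (Pool.Agent.H43.l_eq_zero P.isPGroup' hP (f.symm g).1 (f.symm g).2) ?_
      exact congrArg Subtype.val h1
    obtain ⟨n, ρ, hρ, him⟩ := Pool.Agent.H43.nonreal S x hx
    refine ⟨fun hS => ?_, n, ρ, x, hρ, him⟩
    obtain ⟨m, b, A, hA⟩ := hS (Fin n → ℂ) ρ hρ
    apply him
    have h2 : ρ.character x = (LinearMap.toMatrix b b (ρ x)).trace :=
      LinearMap.trace_eq_matrix_trace ℂ b (ρ x)
    rw [h2, Matrix.trace, Complex.im_sum]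
    refine Finset.sum_eq_zero fun i _ => ?_
    have h3 : LinearMap.toMatrix b b (ρ x) i i = (A x i i : ℂ) := by
      rw [LinearMap.toMatrix_apply, hA x i, map_sum, Finsupp.finsetSum_apply,
        Finset.sum_eq_single i]
      · rw [map_smul, Finsupp.smul_apply, b.repr_self, Finsupp.single_eq_same, smul_eq_mul, mul_one]
      · intro j _ hj
        rw [map_smul, Finsupp.smul_apply, b.repr_self, Finsupp.single_eq_of_ne hj.symm, smul_zero]
      · intro h
        exact absurd (Finset.mem_univ i) h
    rw [Matrix.diag_apply, h3]
    exact Complex.ratCast_im _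

end Pool.Agent.Results.MP_058405_al.SylowNotSplit
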